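import Pool.Agent.helper61.SP.SpecDX
import Pool.Agent.helper1.DP.RR4

/-!
# Project sp, module DX8: the crossing of a rectangle and of a slightly smaller one
-/

namespace TP

open DP MeasureTheory

theorem DX8_diff {F G : Set (V → Bool)} {A : Set V} (hF : Loc F A) (h : F ⊆ G) :
    Pr (G \ F) = Pr G - Pr F := by
  have : IsProbabilityMeasure P1 := by unfold P1; infer_instance
  unfold Pr
  rw [measureReal_sdiff h (DP.RR4_meas hF.coin)]

theorem DX8_sub {F G : Set (V → Bool)} (h : F ⊆ G) : Pr F ≤ Pr G := by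
  have : IsProbabilityMeasure P1 := by unfold P1; infer_instance
  exact measureReal_mono h (measure_ne_top _ _)

theorem DX8 (h7 : DX7_stmt) (hD : DUP_stmt) : DX8_stmt := by
  intro ε hε
  obtain ⟨δ, hδ, L, hL, h⟩ := h7 (ε / 4) (by positivity)
  refine ⟨min δ 1 / 4, by positivity, L, hL, ?_⟩
  intro a b d e s hs h1 h2
  have hs0 : (2 : ℝ) ≤ s := by exact_mod_cast hL.trans hs
  have hsw : (s : ℝ) ≤ (b - a) / 4 := by
    have hba : (0 : ℝ) < (b : ℝ) - a := by
      by_contra hc
      push Not at hc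
      have : min δ 1 / 4 * ((b : ℝ) - a) ≤ 0 := mul_nonpos_of_nonneg_of_nonpos (by positivity) hc
      linarith
    have : min δ 1 / 4 * ((b : ℝ) - a) ≤ 1 / 4 * ((b : ℝ) - a) :=
      mul_le_mul_of_nonneg_right (by have := min_le_right δ 1; linarith) hba.le
    linarith
  have hsh : (s : ℝ) ≤ (e - d) / 4 := by
    have hba : (0 : ℝ) < (e : ℝ) - d := by
      by_contra hc
      push Not at hc
      have : min δ 1 / 4 * ((e : ℝ) - d) ≤ 0 := mul_nonpos_of_nonneg_of_nonpos (by positivity) hc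
      linarith
    have : min δ 1 / 4 * ((e : ℝ) - d) ≤ 1 / 4 * ((e : ℝ) - d) :=
      mul_le_mul_of_nonneg_right (by have := min_le_right δ 1; linarith) hba.le
    linarith
  have hsw' : 4 * s ≤ b - a := by
    have : (4 : ℝ) * s ≤ b - a := by linarith
    exact_mod_cast this
  have hsh' : 4 * s ≤ e - d := by
    have : (4 : ℝ) * s ≤ e - d := by linarith
    exact_mod_cast this
  have hs0' : 2 ≤ s := hL.trans hs
  have k1 : (s : ℝ) ≤ δ * (((b : ℝ) - a) / 2) := by
    have : min δ 1 / 4 * ((b : ℝ) - a) ≤ δ / 4 * ((b : ℝ) - a) :=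
      mul_le_mul_of_nonneg_right (by have := min_le_left δ 1; linarith) (by linarith)
    nlinarith
  have k2 : (s : ℝ) ≤ δ * (((e : ℝ) - d) / 2) := by
    have : min δ 1 / 4 * ((e : ℝ) - d) ≤ δ / 4 * ((e : ℝ) - d) :=
      mul_le_mul_of_nonneg_right (by have := min_le_left δ 1; linarith) (by linarith)
    nlinarith
  have m1 : ∀ x : ℝ, ((b : ℝ) - a) / 2 ≤ x → (s : ℝ) ≤ δ * x := fun x hx =>
    k1.trans (mul_le_mul_of_nonneg_left hx hδ.le)
  have m2 : ∀ x : ℝ, ((e : ℝ) - d) / 2 ≤ x → (s : ℝ) ≤ δ * x := fun x hx =>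
    k2.trans (mul_le_mul_of_nonneg_left hx hδ.le)
  -- the four comparisons
  have c1 := (h a b d e s hs (m1 _ (by linarith)) (m2 _ (by linarith))).1
  have c2 := (h (a + s) b d e s hs (m1 _ (by push_cast; linarith)) (m2 _ (by linarith))).2.1
  have c3 := (h (a + s) (b - s) d e s hs (m1 _ (by push_cast; linarith)) (m2 _ (by linarith))).2.2.1
  have c4 := (h (a + s) (b - s) (d + s) e s hs (m1 _ (by push_cast; linarith))
    (m2 _ (by push_cast; linarith))).2.2.2
  have d1 := hD (a + s) (b - s) d e (by omega) (by omega)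
  have d2 := hD (a + s) (b - s) (d + s) (e - s) (by omega) (by omega)
  set F : Set (V → Bool) := Ev fun c => hcross c true a b d e with hF
  set G : Set (V → Bool) := Ev fun c => hcross c true (a + s) (b - s) (d + s) (e - s) with hG
  set F1 : Set (V → Bool) := Ev fun c => hcross c true (a + s) (b - s) d e with hF1
  have s1 : F ⊆ F1 := fun x hx =>
    RHM.1 (col x) true a b d e (a + s) (b - s) d e (by omega) (by omega) (by omega) le_rfl le_rfl hx
  have s2 : G ⊆ F1 := fun x hx =>
    RHM.1 (col x) true (a + s) (b - s) (d + s) (e - s) (a + s) (b - s) d e le_rfl (by omega) le_rfl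
      (by omega) (by omega) hx
  have e1 : Pr (F1 \ F) = ph true (a + s) (b - s) d e - ph true a b d e :=
    DX8_diff (RLM true a b d e).1 s1
  have e2 : Pr (F1 \ G) = ph true (a + s) (b - s) d e - ph true (a + s) (b - s) (d + s) (e - s) :=
    DX8_diff (RLM true (a + s) (b - s) (d + s) (e - s)).1 s2
  have u1 : Pr (F \ G) ≤ Pr (F1 \ G) := DX8_sub (Set.diff_subset_diff_left s1)
  have u2 : Pr (G \ F) ≤ Pr (F1 \ F) := DX8_sub (Set.diff_subset_diff_left s2)
  linarith

end TP
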