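import Pool.Agent.helper33.SP.SpecC1
import Pool.Agent.helper51.DP.PVC

/-!
# Project sp, module UI1: a connection changed by a box gives two crossing clusters
-/

namespace TP

open DP MeasureTheory

theorem UI1 : UI1_stmt := by
  intro c c' k W y r R u v hrR hW hu hv hcc hc hn
  have hout : ∀ w, r + 1 ≤ sd y w → c w = c' w := fun w hw => hcc w (by omega)
  set S : Set V := {w | w ∈ W ∧ c w = k} with hS
  set S0 : Set V := S ∩ {w | r + 1 ≤ sd y w} with hS0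
  have hS0'' : S0 ⊆ {w | w ∈ W ∧ c' w = k} := by
    rintro w ⟨⟨h1, h2⟩, h3⟩
    refine ⟨h1, ?_⟩
    rw [← hout w h3]
    exact h2
  have hcS : Con S u v := hc
  have hnS : ¬ Con S0 u v := fun h => hn (h.mono hS0'')
  obtain ⟨a, ha, hua⟩ := PVC_one hcS (by omega) hnS
  obtain ⟨a', ha', hva⟩ := PVC_one hcS.symm (by omega) (fun h => hnS h.symm)
  have hS0ann : S0 ∩ box y R ⊆ {w | w ∈ ann y (r + 1) R ∧ c w = k} := by
    rintro w ⟨⟨⟨h1, h2⟩, h3⟩, h4⟩
    exact ⟨⟨h3, h4⟩, h2⟩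
  have key : ∀ z t, z ∈ bd y (r + 1) → R ≤ sd y t → Con S0 t z →
      ∃ z' ∈ bd y R, Conn c k (ann y (r + 1) R) z z' := by
    intro z t hz ht hc'
    obtain ⟨w, h1, h2, -⟩ := Con.exit (x := y) (m := R) hc'.symm
      (by have : sd y z = r + 1 := hz; omega) ht
    exact ⟨w, h1, h2.mono hS0ann⟩
  obtain ⟨z, hz, hz'⟩ := key a u ha hu hua
  obtain ⟨t, ht, ht'⟩ := key a' v ha' hv hva
  refine ⟨a, ha, a', ha', ⟨z, hz, hz'⟩, ⟨t, ht, ht'⟩, ?_⟩
  intro hcon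
  refine hn ?_
  have h1 : Con {w | w ∈ W ∧ c' w = k} a a' := by
    refine Con.mono ?_ hcon
    rintro w ⟨h2, h3⟩
    refine ⟨hW h2.2, ?_⟩
    rw [← hout w h2.1]
    exact h3
  exact ((hua.mono hS0'').trans h1).trans (hva.mono hS0'').symm

end TP
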